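import Pool.Agent.K6.H43.BD.Lines

/-!
# MP_a325a5_ag: Zilber-Pink in the mixed Shimura varieties `Y(1)^n × G_m^k` for the members of
algebraic families with several parameters: finitely many exceptional members at the points of
bounded degree on each line outside of one hypersurface

The Shimura variety `Y(1)^n` is identified with `ℂ^n` by the elliptic modular function
`jj = j = E₄³ / Δ`. The special subvarieties of `Y(1)^n × G_m^k` are the products of a special
subvariety `Z` of `Y(1)^n` and a torsion coset `C`.

**Families.** Let `K ⊂ ℂ` be a countable field and let `P` be an arbitrary finite system of polynomials
in `n` modular coordinates, `k` torus coordinates and `N` auxiliary coordinates, with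
coefficients in `K[t_1, …, t_s][t_0]`. For complex numbers `x` and `t = (t_1, …, t_s)` let `X_{x, t}` be
the set of the points `z` of `Y(1)^n × G_m^k` for which there is a `y ∈ ℂ^N` such that all polynomials
of the system vanish at `(z, y)`, if the coefficients are evaluated at `t_0 = x` and `t`
(`memberL`). So the `X_{x, t}` are the members of an arbitrary algebraic family of subvarieties, or
images of varieties under algebraic maps or correspondences.

**Tropicalizations at hypersurfaces.** Let `h_1, …, h_M` be polynomials in `K[t_1, …, t_s][t_0]`
without multiple factors and pairwise without common factors of positive degree in `t_0`
(`Coprime`), such that each coefficient `c` of the system has an order `e_l(c)` along `h_l = 0`: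
`c = h_l ^ e_l(c) · g`, where `g` has no common factor of positive degree in `t_0` with `h_l`
(`Order`). The tropicalization along `h_l` is the set of the `w` in `(ℚ ∪ {∞})^(n + k + N)` such that
for every polynomial of the system the minimum of the numbers `e_l (coefficient) + β · w` is attained
at two different exponents `β` or is infinite (`TropAt`). The product `Z × C` of a special subvariety
and a coset of an algebraic subgroup has a type `(cls, d, L)`: the partition `cls` of the coordinates
which are not constant on `Z` into `r = dim Z` classes, the determinants `d_i > 0` of the matrices
which define `Z`, and the linear subspace `L` of `ℚ^k`, of dimension `dim C`, which is orthogonal to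
the characters constant on `C`. A point `w` is compatible with the type (`Compatible`) if `w_i ≥ 0`
for the constant coordinates, for coordinates in the same class `w_i, w_j ≥ 0`, or `w_i, w_j < 0` and
`d_i d_j w_i w_j` is a square, and the torus coordinates of `w` are a vector in `L`. The condition
`GenericDegree m σ` says that for every type of dimension `r + dim L < n + k - m` those hypersurfaces
`h_l = 0` for which no point of the tropicalization along `h_l` is compatible with the type have
together at least the degree `σ` in `t_0`.

**Theorem.** There is ONE polynomial `R ≠ 0` in `K[t_1, …, t_s]` such that for ALL complex vectors
`t = (t_1, …, t_s)` with `R(t) ≠ 0` (algebraic or transcendental) and all `d`, the one-parameter family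
`(X_{x, t})_x` has only finitely many members which have an atypical intersection with a product
`Z × C` (`NoAtypical` fails: an irreducible subset, closed in `ℂ^n × (ℂ^×)^k`, of dimension more than
`dim (Z × C) + m - (n + k)`, or a point of larger transcendence degree over `K(t_1, …, t_s)`), where
`x` runs through
* all numbers of degree at most `d` over a finitely generated field of numbers algebraic over
  `K(t_1, …, t_s)` (`Point false d F x`), if `GenericDegree m σ` holds with `σ ≥ 2 d + 1`,
* those of these numbers which are integral over a finitely generated ring (`Point true d F x`), if
  `GenericDegree m σ` holds with `σ ≥ 2 d`.
The constant coordinates of `Z` are special points or integral over the ring generated by a finite set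
`Γ` of numbers algebraic over `K(t_1, …, t_s)`, and `C` is a coset by a point whose coordinates are units
over this ring, for instance a torsion coset.

For `d = 1` the numbers `x` are the elements of a finitely generated field or ring. For example let `F`
be any finitely generated field of characteristic zero. Then the set of all exceptional parameters in
`F^(1 + s)` is contained in the union of the hypersurface `R = 0`, which does not depend on `F`, and of a
set with finitely many points on each line in the direction of `t_0`, if `σ ≥ 3`; and if `σ ≥ 2 d + 1`
this is true for the parameters `(x, t)` with `t ∈ F^s` and `x` of degree at most `d` over `F`, which lie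
in infinitely many different fields. (By a change of variables one gets lines, or curves, in all
directions: the parameters `t_i` can be replaced by the coefficients of arbitrary parametrized
curves.)

The starting files over finitely generated fields (`FinitelyGeneratedFields`, `RationalTranslates`,
`LegendreScaledImages`) are about a single one-parameter family, with a condition on its
degenerate parameters; here the condition is one on the generic point, and the theorem is about all
specialisations outside of one explicit hypersurface. `FamiliesOverVarieties` has parameters in one
finitely generated field outside of a proper closed subset which depends on this field. Parameters of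
bounded degree were known for a single family of the special form `c_i s_i = A_i(y) / B_i(y)` with
rational degenerate parameters, and degrees over `ℚ` (`MP_defd1c_ag.DivisionGroupParameters`). The
theorems for the variations of Hodge structure of families of elliptic curves (`k = 0`) are
`MP_0704bf_ag.FiniteOnLines` (`d = 1`) and `MP_0704bf_ag.BoundedDegreeParameters` (`s = 0`).

Proof. `R` is the product of leading coefficients, discriminants and resultants. If `R(t) ≠ 0` then
the roots of all the `h_l(·, t)` are simple and different from each other, and the order of each
coefficient at each of them is the order along `h_l`. So the tropicalizations of the one-parameter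
family at these roots are the given ones. If `x` is exceptional, then there is a type such that
`1 / (x - α)` is integral over `ℤ[x, W]`, `W` a fixed finite set, for all the roots `α` which exclude the
type. The quotients of the values of the minimal polynomial of `x` at these `α` (and of the leading
coefficient, if `x` is integral) are units of a finitely generated ring. These values are at least
`2 d + 1` linear forms in general position in the coefficients of the minimal polynomial, so by the
theorem on points at which linear forms in general position are units up to scaling
(`Pool.Agent.K6.H79.ZP.subspaces`) there are only finitely many such `x`.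
-/

set_option autoImplicit false

namespace Pool.Agent.Results.MP_a325a5_ag.BoundedDegreeOnLines

open MvPolynomial Pool.Agent.R424.TG Pool.Agent.K6.H43.ZL Pool.Agent.K6.H43.BD
open Pool.Agent.Y152.RP.FamM (NoAtypical)

theorem result (K : Subfield ℂ) [Countable K] (κ : Type) [Finite κ] (s n k N m M : ℕ)
    (P : κ → MvPolynomial ((Fin n ⊕ Fin k) ⊕ Fin N) (Polynomial (MvPolynomial (Fin s) K)))
    (h : Fin M → Polynomial (MvPolynomial (Fin s) K))
    (hsep : ∀ l, Coprime (h l) (Polynomial.derivative (h l)))
    (hpair : ∀ l l', l ≠ l' → Coprime (h l) (h l'))
    (e : Fin M → κ → (((Fin n ⊕ Fin k) ⊕ Fin N) →₀ ℕ) → ℕ)
    (he : ∀ l q, ∀ β ∈ (P q).support, Order (h l) ((P q).coeff β) (e l q β)) :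
    ∃ R : MvPolynomial (Fin s) K, R ≠ 0 ∧ ∀ t : Fin s → ℂ, valueT K t R ≠ 0 →
      ∀ (ι : Bool) (d σ : ℕ), 2 * d + 1 ≤ σ + ι.toNat →
      GenericDegree m σ (fun q => (P q).support) h e →
      ∀ Γ : Finset ℂ, (∀ γ ∈ Γ, IsAlgebraic (fieldAt K t) γ) →
      ∀ F : Finset ℂ, (∀ z ∈ F, IsAlgebraic (fieldAt K t) z) →
        {x : ℂ | Point ι d F x ∧
          ¬ NoAtypical (algebraMap (Algebra.adjoin ℤ (Γ : Set ℂ)) ℂ) (fieldAt K t) m
            (memberL x t P)}.Finite :=
  linesB P h hsep hpair e he

end Pool.Agent.Results.MP_a325a5_ag.BoundedDegreeOnLines
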