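import Pool.Agent.K6.H79.ZP.Main

/-!
# MP_a325a5_ag: Zilber-Pink in the mixed Shimura varieties `Y(1)^n × G_m^k` for the members of
algebraic families over parameter varieties of any dimension, for all parameters over a finitely
generated field or ring outside of a proper closed subset

The Shimura variety `Y(1)^n` is identified with `ℂ^n` by the elliptic modular function
`jj = j = E₄³ / Δ`. The special subvarieties of `Y(1)^n × G_m^k` are the products of a special
subvariety `Z` of `Y(1)^n` and a torsion coset `C`.

**The parameters.** Let `𝒯 ⊂ P^s` be an irreducible projective variety, given by its homogeneous prime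
ideal `𝔭 ⊂ ℂ[T_0, …, T_s]` (`InBase`; for `𝔭 = 0` it is `P^s`). Parameters are vectors
`t = (t_0, …, t_s)` of homogeneous coordinates of points of `𝒯`.

**Families.** Let `K ⊂ ℂ` be a countable field and let `P` be an arbitrary finite system of polynomials
in `n` modular coordinates, `k` torus coordinates and `N` auxiliary coordinates, with
coefficients in `K[T_0, …, T_s]`, such that the coefficients of each polynomial are homogeneous of the
same degree. For a parameter `t` let `X_t` be the set of the points `x` of `Y(1)^n × G_m^k` for which
there is a `y ∈ ℂ^N` such that all polynomials of the system vanish at `(x, y)`, if the coefficients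
are evaluated at `t` (`memberM`). So the `X_t` are the members of an arbitrary algebraic family of
subvarieties with parameters in `𝒯`, or images of varieties under algebraic maps or correspondences.

**Degenerations.** Let the coefficients be equal on `𝒯` to products of a nonzero constant and powers
`∏_h G_h^(e_h)` of homogeneous polynomials `G_1, …, G_M` of degrees `δ_h > 0` (for instance the
irreducible factors of the coefficients). The degenerate parameters lie on the hypersurfaces
`G_h = 0` of `𝒯`. For weights `a_h ≥ 0` of these hypersurfaces the coefficients have the orders
`∑_h a_h e_h`, and the tropicalization of the system consists of the points `w` of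
`(ℚ ∪ {∞})^(n+k+N)` such that for every polynomial of the system the minimum of the values of its
monomials is attained twice or is infinite (`TropAt`). The product `Z × C` of a special subvariety
and a coset of an algebraic subgroup has a type `(cls, d, L)`: the partition `cls` of the
coordinates which are not constant on `Z` into `r = dim Z` classes, the determinants `d_i > 0` of
the matrices which define `Z`, and the linear subspace `L` of `ℚ^k`, of dimension `dim C`, which is
orthogonal to the characters constant on `C`. A point `w` is compatible with the type
(`Compatible`) if `w_i ≥ 0` for the constant coordinates, for coordinates in the same class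
`w_i, w_j ≥ 0`, or `w_i, w_j < 0` and `d_i d_j w_i w_j` is a square, and the torus coordinates of `w`
are a vector in `L`. A type is excluded near to `G_l = 0` (`Excluded`), if for all weights `a` with
`a_l > 0`, such that the hypersurfaces `G_h = 0` with `a_h > 0` have a common point on `𝒯` outside of
the boundary (`Meet`), the tropicalization has no compatible point. The boundary is the union of a
given set `U` of the hypersurfaces, which may be empty. If `G_l = 0` does not meet the other
hypersurfaces outside of the boundary, this is a condition only on the orders `e_l` along
`G_l = 0`; if they intersect there, it is a stronger condition at the intersections.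

**Related hypersurfaces.** The forms `G_l`, `l ∈ J`, are called related on `𝒯` (`Related`), if there is
a polynomial relation between them on `𝒯` in which one of the monomials is not proportional to any
other monomial on `𝒯`. Examples: `s + 2` different irreducible hypersurfaces of `P^s`; more generally
multiplicatively independent forms on `𝒯` of which there are at least `dim 𝒯 + 2`; three members
`g - c_i g'` of a pencil (two members and `g'`, if the boundary `U` contains `g'`); one form `G_l`
which is not a monomial, together with the coordinates `T_0, …, T_s`.

**Theorem.** Let `m` be an integer (the dimension of the `X_t`) and let `F, Γ ⊂ K` be finite. Assume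
that for every type of dimension `r + dim L < n + k - m` the forms `G_l`, such that `l ∈ U` or the
type is excluded near to `G_l = 0`, are related on `𝒯` (`GenericB`). Then there is a polynomial `Ψ` in
`T_0, …, T_s` which does not vanish on `𝒯` (`Ψ ∉ 𝔭`), such that for all parameters `t ∈ 𝒯` with
coordinates in the field generated by `F`, which are integral points of the complement of the
boundary (`IntegralAt`: `t_i^(δ_l) / G_l(t)` is in the ring generated by `F` for `l ∈ U`), with
`G_h(t) ≠ 0` for all `h` and `Ψ(t) ≠ 0`, the set `X_t` has no atypical intersection with the products
`Z × C` (`NoAtypical`): every irreducible subset of `X_t ∩ (Z × C)`, closed in `ℂ^n × (ℂ^×)^k`, has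
dimension at most `dim (Z × C) + m - (n + k)`, and the same bound holds for the transcendence
degrees of the points over `K`. The constant coordinates of `Z` are special points or integral over
`ℤ[Γ]`, and `C` is a coset by a point whose coordinates are units over `ℤ[Γ]`, for instance a torsion
coset.

So the conclusion holds for all points `t` of `𝒯` over a finitely generated field outside of a proper
closed subset, if `U` is empty; for all integral points `t ∈ R^s` of affine space over a finitely
generated ring `R` outside of a proper closed subset, if `𝒯 = P^s` and `U` is the hyperplane at
infinity; and for all `t ∈ (R^×)^s` outside of a proper closed subset, if `U` consists of the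
coordinate hyperplanes; in the last case one hypersurface for every type is enough.

The starting file `FinitelyGeneratedFields` has one parameter and sets of the special form
`c_i s_i = A_i(y) / B_i(y)`; the starting files with several parameters are about random members.
The theorem for the variations of Hodge structure of families of elliptic curves (`k = 0`) is
`MP_0704bf_ag.FamiliesOverVarieties`.

The proof: if the type is excluded near to `G_l = 0`, then an atypical intersection of this type is
only possible if `t` is not near to `G_l = 0` at all places outside of a finite set. If this holds
for all `l ∈ J`, then the quotients of the products of powers of the `G_l(t)` of the same degree are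
units of a fixed finitely generated ring; by the theorem on linear relations between such units the
points `t` with this property are not Zariski dense, if the forms are related.
-/

set_option autoImplicit false

namespace Pool.Agent.Results.MP_a325a5_ag.FamiliesOverVarieties

open MvPolynomial Pool.Agent.K6.H79.ZP
open Pool.Agent.Y152.RP.FamM (NoAtypical)

/-- Zilber-Pink for the members of families of subvarieties of `Y(1)^n × G_m^k` over a projective
variety, outside of a proper closed subset. -/
theorem result (K : Subfield ℂ) [Countable K] (κ : Type) [Finite κ] (n k N m s M : ℕ)
    (𝔭 : Ideal (MvPolynomial (Fin (s + 1)) ℂ)) (hprime : 𝔭.IsPrime)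
    (h𝔭 : ∀ p ∈ 𝔭, ∀ i, homogeneousComponent i p ∈ 𝔭)
    (P : κ → MvPolynomial ((Fin n ⊕ Fin k) ⊕ Fin N) (MvPolynomial (Fin (s + 1)) K))
    (hhom : ∀ q, ∃ ε, ∀ β ∈ (P q).support, ((P q).coeff β).IsHomogeneous ε)
    (G : Fin M → MvPolynomial (Fin (s + 1)) K) (δ : Fin M → ℕ) (hδ : ∀ h, 0 < δ h)
    (hG : ∀ h, (G h).IsHomogeneous (δ h))
    (e : Fin M → κ → (((Fin n ⊕ Fin k) ⊕ Fin N) →₀ ℕ) → ℕ)
    (hfac : ∀ q, ∀ β ∈ (P q).support, ∃ c : K, c ≠ 0 ∧
      map (algebraMap K ℂ) ((P q).coeff β - C c * ∏ h, G h ^ e h q β) ∈ 𝔭)
    (Γ F : Finset ℂ) (hΓ : ∀ γ ∈ Γ, γ ∈ K) (hF : ∀ z ∈ F, z ∈ K) (U : Finset (Fin M))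
    (hgen : GenericB m (fun q => (P q).support) e 𝔭 G U) :
    ∃ Ψ : MvPolynomial (Fin (s + 1)) ℂ, Ψ ∉ 𝔭 ∧ ∀ t : Fin (s + 1) → ℂ, InBase 𝔭 t →
      (∀ i, t i ∈ Subfield.closure (F : Set ℂ)) → (∀ h, evalT t (G h) ≠ 0) →
      IntegralAt G δ U (Subring.closure (F : Set ℂ)) t → eval t Ψ ≠ 0 →
      NoAtypical (algebraMap (Algebra.adjoin ℤ (Γ : Set ℂ)) ℂ) K m (memberM t P) := by
  obtain ⟨Ψ, h1, h2⟩ := familyB (m := m) K 𝔭 hprime h𝔭 P hhom G δ hδ hG e hfac Γ F hΓ hF U hgen
  refine ⟨Ψ, h1, fun t htb ht ht0 htU hΨ => ?_⟩
  by_contra hno
  exact hΨ (h2 t htb ht ht0 htU hno)

end Pool.Agent.Results.MP_a325a5_ag.FamiliesOverVarieties
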