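import Pool.Agent.K6.H79.ZP.GeoMain

/-!
# MP_a325a5_ag: Zilber-Pink in the mixed Shimura varieties `Y_1 × … × Y_n × G_m^k` for the members of
families in general position over parameter varieties of any dimension, for all parameters over a
finitely generated field or ring outside of a proper closed subset

The Shimura variety `Y(1)^n` is identified with `ℂ^n` by the elliptic modular function
`jj = j = E₄³ / Δ`. The ambient variety is `Y(1)^n × G_m^k`, with coordinates indexed by
`Fin n ⊕ Fin k`, or more generally a product of modular curves of any levels (finite over `Y(1)^n`)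
and a torus; for `n = 0` it is a torus, for `k = 0` a pure Shimura variety.

**The parameters.** Let `𝒯 ⊂ P^s` be an irreducible projective variety, given by its homogeneous prime
ideal `𝔭 ⊂ ℂ[T_0, …, T_s]` (`InBase`; for `𝔭 = 0` it is `P^s`), let `K ⊂ ℂ` be a countable field, and
let `G_1, …, G_M` be forms of degrees `δ_h > 0` with coefficients in `K`. The complement of the
hypersurfaces `G_u = 0`, `u ∈ U`, in `𝒯` is the parameter space; `U` may be empty.

**Families.** We consider algebraic families `X_t` of subsets of `Y(1)^n × G_m^k` with parameter
`t ∈ 𝒯`, given by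
* a family `B_t ⊆ P^N` of projective algebraic sets, defined by polynomials `P l` which are
  homogeneous in the parameters and in the coordinates of `P^N` (`BiHom`, `OnB`),
* quotients `A_i / B_i` of such polynomials, of the same degree `d_i` in the coordinates of `P^N` and of
  the degrees `γ_i + β_i` and `β_i` in the parameters, one for every coordinate,
* functions `s_i` integral over `K[j]`, `R_i (s_i, j) = 0` with `R_i` monic in the first variable
  (level one: `R_i = S - J`, `s_i = j`; in general modular functions of any level without poles
  in the upper half plane), and forms `c_i` of degree `γ_i` in the parameters, which are equal on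
  `𝒯` to a nonzero constant multiplied by `∏_h G_h^(e_hi)`:
`X_t` (`scaledT`) is the set of all `(x, u)` such that for some `y ∈ B_t` and some `s` we have
`R_i (s_i, x_i) = 0`, `c_i(t) s_i = A_i(t, y) / B_i(t, y)` for the modular coordinates, and
`c_j(t) u_j = A_j(t, y) / B_j(t, y)` for the torus coordinates.

**Degenerations.** Let `D_1, …, D_M'` be finite sets of these hypersurfaces. The family degenerates
along the hypersurfaces `G_h = 0`, `h ∈ D_l`, in the following sense, outside of the hypersurfaces
of `U`:
* `G_h = 0` does not meet the other hypersurfaces on `𝒯` outside of `U` (`Meet`),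
* if the parameter `z ∈ 𝒯` is on `G_h = 0` and not on the hypersurfaces of `U`, no point of `B_z` lies
  on `m + 1` of the divisors of the `A_i / B_i` (`PositionAlong`), and
* the orders `e_hi` of the `c_i` are positive and independent (`IndependentAlong`): for the modular
  coordinates `q e_hi e_hj e_h'i e_h'j` is not a square for `h` in `D_l` and `h'` in `D_l'`, `l ≠ l'`,
  `i ≠ j`, `1 ≤ q ≤ T^8`, where `T` bounds the degrees of the `R_i` (`T = 1` for level one), and for
  the torus coordinates the vectors `(e_hj)_j` for `h` in `k` different sets `D_l` are linearly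
  independent.

**Theorem.** Let `F, Γ ⊂ K` be finite and `L = n (n - 1) / 2 + k 2^k`. Assume that for any `M' - L` or
more of the sets `D_l` the forms `G_h`, `h ∈ U` or `h` in one of these sets, are related on `𝒯`
(`Related`): there is a polynomial relation between them on `𝒯` in which one of the monomials is
not proportional to any other monomial on `𝒯`. Then there is a polynomial `Φ` in `T_0, …, T_s` which
does not vanish on `𝒯` (`Φ ∉ 𝔭`), such that for all parameters `t ∈ 𝒯` with coordinates in the field
generated by `F`, which are integral points of the parameter space (`IntegralAt`: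
`t_i^(δ_u) / G_u(t)` is in the ring generated by `F` for `u ∈ U`), with `G_h(t) ≠ 0` for all `h` and
`Φ(t) ≠ 0`, the set `X_t` has no atypical intersection with the products `Z × C`, `Z` a special
subvariety of `Y(1)^n` and `C` a torsion coset (`NoAtypical`): every irreducible subset of
`X_t ∩ (Z × C)`, closed in `ℂ^n × (ℂ^×)^k`, has dimension at most `dim Z + dim C + m - (n + k)`, and
the same bound holds for the transcendence degrees of the points of `X_t ∩ (Z × C)` over `K`. The
constant coordinates of `Z` can be special points or integral over `ℤ[Γ]`, and `C` can be any coset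
of an algebraic subgroup by a point `η` such that the `η_j` and `1 / η_j` are integral over `ℤ[Γ]`.

Examples of related forms: `s + 2` different irreducible forms on `P^s`; three members of a pencil
`g - a g'` (two members, if `g' = 0` is in `U`: for instance if `𝒯 = P^s`, `U` is the hyperplane at
infinity `T_0 = 0`, the `t_i / t_0` are in a finitely generated ring, and the `G_h` are different
parallel hyperplanes or different fibres of a polynomial function on the affine space, which do not
meet outside of `U`); one form which is not a monomial, if `U` contains the coordinate hyperplanes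
(so the `t_i / t_j` are units of the ring).

The starting file `FinitelyGeneratedFields` is the case of one parameter (`𝒯 = P^1`, where `D_l` are
finite sets of points, and three points, or two points and infinity, are related). There the
exceptional set is finite. The file `FamiliesOverVarieties` has arbitrary systems of polynomials
and a tropical condition at the degenerate members instead of the general position.

The proof combines the Nullstellensatz for the points of the degenerate members, the local criterion
of the starting files, and the theorem on the linear relations between units of finitely generated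
rings.
-/

set_option autoImplicit false

namespace Pool.Agent.Results.MP_a325a5_ag.ScaledImagesOverVarieties

open MvPolynomial Pool.Agent.K6.H79.ZP
open Pool.Agent.Y152.RP.FamM (NoAtypical)

/-- Zilber-Pink for the members of families of scaled images in products of modular curves and tori
over a projective variety, outside of a proper closed subset. -/
theorem result (K : Subfield ℂ) [Countable K] (ν : Type) (n k N m s M M' T : ℕ)
    (𝔭 : Ideal (MvPolynomial (Fin (s + 1)) ℂ)) (hprime : 𝔭.IsPrime)
    (h𝔭 : ∀ p ∈ 𝔭, ∀ i, homogeneousComponent i p ∈ 𝔭)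
    (G : Fin M → MvPolynomial (Fin (s + 1)) K) (δ : Fin M → ℕ) (hδ : ∀ h, 0 < δ h)
    (hG : ∀ h, (G h).IsHomogeneous (δ h)) (U : Finset (Fin M))
    (P : ν → MvPolynomial (Fin (N + 1)) (MvPolynomial (Fin (s + 1)) K))
    (hP : ∀ l, ∃ a b, BiHom (P l) a b)
    (A B : Fin n ⊕ Fin k → MvPolynomial (Fin (N + 1)) (MvPolynomial (Fin (s + 1)) K))
    (β γ d : Fin n ⊕ Fin k → ℕ) (hA : ∀ i, BiHom (A i) (γ i + β i) (d i))
    (hB : ∀ i, BiHom (B i) (β i) (d i))
    (R : Fin n → Polynomial (Polynomial K)) (hR : ∀ i, (R i).Monic)
    (hT : ∀ i u w, ((R i).coeff u).coeff w ≠ 0 → u ≤ T ∧ w ≤ T)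
    (c : Fin n ⊕ Fin k → MvPolynomial (Fin (s + 1)) K) (hc : ∀ i, (c i).IsHomogeneous (γ i))
    (e : Fin M → Fin n ⊕ Fin k → ℕ)
    (hfac : ∀ i, ∃ c₀ : K, c₀ ≠ 0 ∧ map (algebraMap K ℂ) (c i - C c₀ * ∏ h, G h ^ e h i) ∈ 𝔭)
    (D : Fin M' → Finset (Fin M)) (hind : IndependentAlong T e D)
    (hdis : ∀ l, ∀ h ∈ D l, ∀ h', h' ≠ h → ¬ Meet 𝔭 G U {h, h'})
    (hpos : ∀ l, ∀ h ∈ D l, PositionAlong m 𝔭 G U P A B h)
    (hrel : ∀ I : Finset (Fin M'), M' ≤ I.card + (n.choose 2 + k * 2 ^ k) →
      Related 𝔭 (fun l => map (algebraMap K ℂ) (G l)) {h | h ∈ U ∨ ∃ l ∈ I, h ∈ D l})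
    (Γ F : Finset ℂ) (hΓ : ∀ γ ∈ Γ, γ ∈ K) (hF : ∀ z ∈ F, z ∈ K) :
    ∃ Φ : MvPolynomial (Fin (s + 1)) ℂ, Φ ∉ 𝔭 ∧ ∀ t : Fin (s + 1) → ℂ, InBase 𝔭 t →
      (∀ i, t i ∈ Subfield.closure (F : Set ℂ)) → (∀ h, evalT t (G h) ≠ 0) →
      IntegralAt G δ U (Subring.closure (F : Set ℂ)) t → eval t Φ ≠ 0 →
      NoAtypical (algebraMap (Algebra.adjoin ℤ (Γ : Set ℂ)) ℂ) K m (scaledT t P A B R c) :=
  familyG' K 𝔭 hprime h𝔭 G δ hδ hG U P hP A B β γ d hA hB R hR hT c hc e hfac D hind hdis hpos
    hrel Γ F hΓ hF

end Pool.Agent.Results.MP_a325a5_ag.ScaledImagesOverVarieties
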