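import Pool.Agent.K6.H43.ZL.Loc

/-!
# MP_a325a5_ag: Zilber-Pink in the mixed Shimura varieties `Y(1)^n × G_m^k` for the members of
algebraic families with several integral parameters: a uniform bound for the number of the
exceptional members on lines

The Shimura variety `Y(1)^n` is identified with `ℂ^n` by the elliptic modular function
`jj = j = E₄³ / Δ`. The special subvarieties of `Y(1)^n × G_m^k` are the products of a special
subvariety `Z` of `Y(1)^n` and a torsion coset `C`.

**Families.** Let `P` be an arbitrary finite system of polynomials in `n` modular coordinates, `k` torus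
coordinates and `N` auxiliary coordinates, with coefficients in `ℤ[t_1, …, t_s][t_0]`. For integers
`x` and `t = (t_1, …, t_s)` let `X_{x, t}` be the set of the points `z` of `Y(1)^n × G_m^k` for which
there is a `y ∈ ℂ^N` such that all polynomials of the system vanish at `(z, y)`, if the coefficients
are evaluated at `t_0 = x` and `t` (`memberZ`). So the `X_{x, t}` are the members of an arbitrary
algebraic family of subvarieties, or images of varieties under algebraic maps or correspondences.

**The condition.** Let `h_1, …, h_M` be polynomials in `ℤ[t_1, …, t_s][t_0]` of positive degree in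
`t_0`, such that each coefficient `c` of the system has an order `e_l(c)` along `h_l = 0`:
`c = h_l ^ e_l(c) · g`, where `g` has no common factor of positive degree in `t_0` with `h_l`
(`HasOrd`). The tropicalization along `h_l` is the set of the `w` in `(ℚ ∪ {∞})^(n + k + N)` such that
for every polynomial of the system the minimum of the numbers `e_l (coefficient) + β · w` is attained
at two different exponents `β` or is infinite (`TropAt`). The product `Z × C` of a special subvariety
and a coset of an algebraic subgroup has a type `(cls, d, L)`: the partition `cls` of the coordinates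
which are not constant on `Z` into `r = dim Z` classes, the determinants `d_i > 0` of the matrices
which define `Z`, and the linear subspace `L` of `ℚ^k`, of dimension `dim C`, which is orthogonal to
the characters constant on `C`. A point `w` is compatible with the type (`Compatible`) if `w_i ≥ 0`
for the constant coordinates, for coordinates in the same class `w_i, w_j ≥ 0`, or `w_i, w_j < 0` and
`d_i d_j w_i w_j` is a square, and the torus coordinates of `w` are a vector in `L`. The condition
`GenericOrders` says that for every type of dimension `r + dim L < n + k - m` there is an `l` such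
that no point of the tropicalization along `h_l` is compatible with the type.

**Theorem.** There is ONE polynomial `R ≠ 0` in `ℤ[t_1, …, t_s]` such that for every `ε > 0` there is a
constant `C` with the following property. For ALL integral vectors `t = (t_1, …, t_s)` with
`R(t) ≠ 0` and all `X ≥ 1` there are at most `C (X · size t) ^ ε` integers `x` with `|x| ≤ X` for which
`X_{x, t}` has an atypical intersection with a product `Z × C` (`NoAtypical` fails): an irreducible
subset, closed in `ℂ^n × (ℂ^×)^k`, of dimension more than `dim (Z × C) + m - (n + k)`, or a point of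
larger transcendence degree. The constant coordinates of `Z` are special points or integral over the
ring generated by a finite set `Γ` of algebraic numbers, and `C` is a coset by a point whose
coordinates are units over this ring, for instance a torsion coset. Here `size t = 1 + ∑ |t_i|`.

For a box `|t_0|, …, |t_s| ≤ B` this implies that at most `C' B ^ (s + ε)` of the members are
exceptional, but the bound holds for every single line outside of `R = 0`, and for `|x| ≤ X` with
any `X ≥ (size t) ^ δ`: so it gives bounds for boxes with sides of very different lengths, and for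
the parameters `(x, t)`, `t ∈ T`, where `T` is ANY set of integral vectors outside of `R = 0`, however
thin, for instance points on a subvariety. The starting files of this problem with random members
(`RandomMixedShimura`, `RandomSubvarieties`, `OneNullSet`, `ThinCorrespondences`) have sets of density
zero, and the files over finitely generated fields have exceptional sets which are finite or not
Zariski dense, under the stronger condition that several hypersurfaces exclude each type.
The theorem for the variations of Hodge structure of families of elliptic curves (`k = 0`) is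
`MP_0704bf_ag.UniformCountOnLines`.

Proof. Let `a h_l + b g = R_l(t)`. If `x` is exceptional then there is an `l` such that all prime factors
larger than `P₀` of `h_l(x, t)` divide `g(x, t)` and so `R_l(t) ≠ 0`. The number of the integers up to
`Y = O((X · size t) ^ D)` composed of primes `≤ P₀` and of the prime factors of `R_l(t)` is
`O(Y ^ δ |R_l(t)| ^ δ)` by Rankin's trick, with a constant which does not depend on `t`. For the other `x`
the local criterion (`coreB` of the starting library) at places above `p > P₀`, `p ∣ h_l(x, t)`,
`p ∤ g(x, t)`, shows that there are no atypical intersections.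
-/

set_option autoImplicit false

namespace Pool.Agent.Results.MP_a325a5_ag.UniformCountOnLines

open MvPolynomial Pool.Agent.R424.TG Pool.Agent.R424.MP Pool.Agent.K6.H43.ZL
open Pool.Agent.Y152.RP.FamM (NoAtypical)

/-- The value of a polynomial in the parameters at the integral point `(x, t)`. -/
noncomputable def valueZ {s : ℕ} (x : ℤ) (t : Fin s → ℤ) :
    Polynomial (MvPolynomial (Fin s) ℤ) →+* ℂ :=
  (Int.castRingHom ℂ).comp (ev x t)

/-- The member `X_{x, t}` of the family: the points `z` of `Y(1)^n × G_m^k` over which there is a point
`(z, y)` at which all the polynomials `P q` (with coefficients at `(x, t)`) vanish. -/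
def memberZ {s n k N : ℕ} {κ : Type} (x : ℤ) (t : Fin s → ℤ)
    (P : κ → MvPolynomial ((Fin n ⊕ Fin k) ⊕ Fin N) (Polynomial (MvPolynomial (Fin s) ℤ))) :
    Set (Fin n ⊕ Fin k → ℂ) :=
  {z | (∀ j, z (Sum.inr j) ≠ 0) ∧ ∃ y : Fin N → ℂ, ∀ q,
    eval₂ (valueZ x t) (Sum.elim z y) (P q) = 0}

theorem result (K : Subfield ℂ) [Countable K] (κ : Type) [Finite κ] (s n k N m M : ℕ)
    (P : κ → MvPolynomial ((Fin n ⊕ Fin k) ⊕ Fin N) (Polynomial (MvPolynomial (Fin s) ℤ)))
    (h : Fin M → Polynomial (MvPolynomial (Fin s) ℤ)) (hdeg : ∀ l, 0 < (h l).natDegree)
    (e : Fin M → κ → (((Fin n ⊕ Fin k) ⊕ Fin N) →₀ ℕ) → ℕ)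
    (he : ∀ l q, ∀ β ∈ (P q).support, HasOrd (h l) ((P q).coeff β) (e l q β))
    (hgen : GenericOrders m (fun q => (P q).support) e)
    (Γ : Finset ℂ) (hΓ : ∀ γ ∈ Γ, IsAlgebraic ℚ γ) (hΓK : ∀ γ ∈ Γ, γ ∈ K) :
    ∃ R : MvPolynomial (Fin s) ℤ, R ≠ 0 ∧ ∀ ε : ℝ, 0 < ε → ∃ C : ℝ,
      ∀ X : ℕ, 1 ≤ X → ∀ t : Fin s → ℤ, eval t R ≠ 0 →
        ({x : ℤ | |x| ≤ X ∧
          ¬ NoAtypical (algebraMap (Algebra.adjoin ℤ (Γ : Set ℂ)) ℂ) K m
            (memberZ x t P)}.ncard : ℝ) ≤ C * ((X : ℝ) * size t) ^ ε := by
  obtain ⟨R, hR, hmain⟩ := fibT (m := m) K (fun q => (P q).support) (fun q β => (P q).coeff β) h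
    hdeg e he hgen Γ hΓ hΓK
  refine ⟨R, hR, fun ε hε => ?_⟩
  obtain ⟨C, hC⟩ := hmain ε hε
  refine ⟨C, fun X hX t ht => le_trans (le_of_eq ?_) (hC X hX t ht)⟩
  have key : ∀ x : ℤ, memberZ x t P =
      solutions (fun q => (P q).support) (fun q β => ((ev x t ((P q).coeff β) : ℤ) : ℂ)) := by
    intro x
    ext z
    refine and_congr Iff.rfl (exists_congr fun y => forall_congr' fun q => ?_)
    rw [eval₂_eq']
    rfl
  simp only [key]

end Pool.Agent.Results.MP_a325a5_ag.UniformCountOnLines
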